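import Pool.Agent.U398.MV.Stm

set_option autoImplicit false

/-!
# Project MV, package EN: the energy estimate
-/

namespace Pool.Agent.U747.MV

open MeasureTheory Filter Topology Set Complex
open Pool.Agent.U398.MV (S_EN)

lemma key_pt {c0 η ε : ℝ} (hc0 : 0 ≤ c0) (hc1 : c0 ≤ 1) (hη : 0 < η) (V P D : ℂ)
    (hE : ‖V + (c0 : ℂ) * P + D‖ ≤ ε) :
    |‖V‖ ^ 2 - c0 ^ 2 * ‖P‖ ^ 2| ≤ η * ‖P‖ ^ 2 + (1 + 1 / η) * (2 * ‖D‖ ^ 2 + 2 * ε ^ 2) := by
  have hg : ‖V + (c0 : ℂ) * P‖ ≤ ‖D‖ + ε := by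
    have h1 : V + (c0 : ℂ) * P = (V + (c0 : ℂ) * P + D) - D := by ring
    rw [h1]
    have h2 := norm_sub_le (V + (c0 : ℂ) * P + D) D
    linarith
  have hd : |‖V‖ - c0 * ‖P‖| ≤ ‖V + (c0 : ℂ) * P‖ := by
    have h1 := abs_norm_sub_norm_le V (-((c0 : ℂ) * P))
    rw [norm_neg, norm_mul, Complex.norm_real, Real.norm_eq_abs, abs_of_nonneg hc0, sub_neg_eq_add] at h1
    exact h1
  have hx : 0 ≤ ‖V‖ := norm_nonneg V
  have hP : 0 ≤ ‖P‖ := norm_nonneg P
  have hD : 0 ≤ ‖D‖ := norm_nonneg D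
  have hε : 0 ≤ ε := (norm_nonneg _).trans hE
  set x := ‖V‖
  set y := c0 * ‖P‖ with hy
  have hy0 : 0 ≤ y := mul_nonneg hc0 hP
  set g := ‖D‖ + ε with hgdef
  have hg0 : 0 ≤ g := add_nonneg hD hε
  have hxy : |x - y| ≤ g := hd.trans hg
  have h1 : |x ^ 2 - y ^ 2| ≤ g * (2 * y + g) := by
    have h2 : x ^ 2 - y ^ 2 = (x - y) * (x + y) := by ring
    rw [h2, abs_mul]
    have h3 : |x + y| ≤ 2 * y + g := by
      rw [abs_of_nonneg (by linarith)]
      have := (abs_le.1 hxy).2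
      linarith
    exact mul_le_mul hxy h3 (abs_nonneg _) hg0
  have h4 : y ^ 2 ≤ ‖P‖ ^ 2 := by
    apply pow_le_pow_left₀ hy0
    rw [hy]
    calc c0 * ‖P‖ ≤ 1 * ‖P‖ := mul_le_mul_of_nonneg_right hc1 hP
      _ = ‖P‖ := one_mul _
  have h5 : g * (2 * y + g) ≤ η * y ^ 2 + (1 + 1 / η) * g ^ 2 := by
    have h6 : 0 ≤ (η * y - g) ^ 2 / η := div_nonneg (sq_nonneg _) hη.le
    have h7 : (η * y - g) ^ 2 / η = η * y ^ 2 - 2 * (y * g) + 1 / η * g ^ 2 := by
      field_simp
      ring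
    nlinarith
  have h8 : g ^ 2 ≤ 2 * ‖D‖ ^ 2 + 2 * ε ^ 2 := by
    rw [hgdef]
    nlinarith [sq_nonneg (‖D‖ - ε)]
  have h9 : 0 ≤ 1 + 1 / η := by positivity
  have h10 : c0 ^ 2 * ‖P‖ ^ 2 = y ^ 2 := by rw [hy]; ring
  rw [h10]
  calc |x ^ 2 - y ^ 2| ≤ g * (2 * y + g) := h1
    _ ≤ η * y ^ 2 + (1 + 1 / η) * g ^ 2 := h5
    _ ≤ η * ‖P‖ ^ 2 + (1 + 1 / η) * (2 * ‖D‖ ^ 2 + 2 * ε ^ 2) :=
      add_le_add (mul_le_mul_of_nonneg_left h4 hη.le) (mul_le_mul_of_nonneg_left h8 h9)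

/-- the estimate for one frequency -/
lemma one_freq {c0 η ε α β : ℝ} (hc0 : 0 ≤ c0) (hc1 : c0 ≤ 1) (hη : 0 < η) (hab : α ≤ β)
    (V P D : ℝ → ℂ) (hV : Continuous V) (hP : Continuous P) (hD : Continuous D)
    (hE : ∀ t ∈ Icc α β, ‖V t + (c0 : ℂ) * P t + D t‖ ≤ ε) :
    |(∫ t in α..β, ‖V t‖ ^ 2) - c0 ^ 2 * ∫ t in α..β, ‖P t‖ ^ 2| ≤
      η * (∫ t in α..β, ‖P t‖ ^ 2) + (1 + 1 / η) * (2 * (∫ t in α..β, ‖D t‖ ^ 2) + 2 * ε ^ 2 * (β - α)) := by
  have iV : IntervalIntegrable (fun t => ‖V t‖ ^ 2) volume α β := (hV.norm.pow 2).intervalIntegrable _ _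
  have iP : IntervalIntegrable (fun t => ‖P t‖ ^ 2) volume α β := (hP.norm.pow 2).intervalIntegrable _ _
  have iD : IntervalIntegrable (fun t => ‖D t‖ ^ 2) volume α β := (hD.norm.pow 2).intervalIntegrable _ _
  rw [← intervalIntegral.integral_const_mul, ← intervalIntegral.integral_sub iV (iP.const_mul _)]
  have h1 : ‖∫ t in α..β, (‖V t‖ ^ 2 - c0 ^ 2 * ‖P t‖ ^ 2)‖ ≤
      ∫ t in α..β, (η * ‖P t‖ ^ 2 + (1 + 1 / η) * (2 * ‖D t‖ ^ 2 + 2 * ε ^ 2)) := by
    apply intervalIntegral.norm_integral_le_of_norm_le hab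
    · refine Filter.Eventually.of_forall fun t ht => ?_
      rw [Real.norm_eq_abs]
      exact key_pt hc0 hc1 hη _ _ _ (hE t (Ioc_subset_Icc_self ht))
    · apply Continuous.intervalIntegrable
      fun_prop
  rw [Real.norm_eq_abs] at h1
  refine h1.trans (le_of_eq ?_)
  rw [intervalIntegral.integral_add (iP.const_mul _)
    (((iD.const_mul _).add intervalIntegrable_const).const_mul _),
    intervalIntegral.integral_const_mul, intervalIntegral.integral_const_mul,
    intervalIntegral.integral_add (iD.const_mul _) intervalIntegrable_const,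
    intervalIntegral.integral_const_mul, intervalIntegral.integral_const, smul_eq_mul]
  ring

lemma int_pow (M : ℝ) (hM : 0 ≤ M) :
    ∫ u in (0 : ℝ)..M, 1 / ((1 + u) * Real.sqrt (1 + u)) ≤ 2 := by
  have hd : ∀ u ∈ uIcc 0 M, HasDerivAt (fun u : ℝ => -2 / Real.sqrt (1 + u))
      (1 / ((1 + u) * Real.sqrt (1 + u))) u := by
    intro u hu
    rw [uIcc_of_le hM] at hu
    have h1 : (0 : ℝ) < 1 + u := by linarith [hu.1]
    have h2 : HasDerivAt (fun u : ℝ => 1 + u) 1 u := by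
      simpa using (hasDerivAt_id u).const_add 1
    have h3 := h2.sqrt h1.ne'
    have h4 := (h3.inv (Real.sqrt_pos.2 h1).ne').const_mul (-2)
    refine (h4.congr_deriv ?_).congr_of_eventuallyEq ?_
    · have h5 : Real.sqrt (1 + u) ^ 2 = 1 + u := Real.sq_sqrt h1.le
      have h6 : Real.sqrt (1 + u) ≠ 0 := (Real.sqrt_pos.2 h1).ne'
      rw [h5]
      field_simp
    · refine Filter.Eventually.of_forall fun y => ?_
      simp only [div_eq_mul_inv]
      rfl
  rw [intervalIntegral.integral_eq_sub_of_hasDerivAt hd]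
  · have h1 : 0 ≤ 2 / Real.sqrt (1 + M) := by positivity
    rw [add_zero, Real.sqrt_one]
    have h2 : -2 / Real.sqrt (1 + M) = -(2 / Real.sqrt (1 + M)) := by ring
    rw [h2]
    linarith
  · apply ContinuousOn.intervalIntegrable
    intro u hu
    rw [uIcc_of_le hM] at hu
    have h1 : (0 : ℝ) < 1 + u := by linarith [hu.1]
    apply ContinuousAt.continuousWithinAt
    apply ContinuousAt.div continuousAt_const (by fun_prop)
    exact (mul_pos h1 (Real.sqrt_pos.2 h1)).ne'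

lemma int_parts (M K : ℝ) (hM : 1 ≤ M) (A : ℝ → ℝ) (hA : Continuous A) (hA0 : ∀ u, 0 ≤ A u)
    (hK : 0 ≤ K) (h : ∀ U, 1 ≤ U → U ≤ M → ∫ u in (0 : ℝ)..U, A u ≤ K * U ^ 4) :
    ∫ u in (0 : ℝ)..M, A u * (1 / (1 + u) ^ 3) ≤ K * (1 + 4 * M) := by
  have hF : ∀ s ∈ Icc 0 M, ∫ u in (0 : ℝ)..s, A u ≤ K * (1 + s) ^ 4 := by
    intro s hs
    by_cases h1 : 1 ≤ s
    · refine (h s h1 hs.2).trans (mul_le_mul_of_nonneg_left ?_ hK)
      exact pow_le_pow_left₀ hs.1 (by linarith) 4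
    · push Not at h1
      have h2 : ∫ u in (0 : ℝ)..s, A u ≤ ∫ u in (0 : ℝ)..1, A u := by
        apply intervalIntegral.integral_mono_interval le_rfl hs.1 h1.le
        · exact Filter.Eventually.of_forall fun u => hA0 u
        · exact hA.intervalIntegrable _ _
      refine h2.trans ((h 1 le_rfl hM).trans (mul_le_mul_of_nonneg_left ?_ hK))
      exact pow_le_pow_left₀ zero_le_one (by linarith [hs.1]) 4
  have hM0 : (0 : ℝ) ≤ M := by linarith
  have hdF : ∀ u ∈ uIcc 0 M, HasDerivAt (fun s => ∫ u in (0 : ℝ)..s, A u) (A u) u := by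
    intro u _
    exact intervalIntegral.integral_hasDerivAt_right (hA.intervalIntegrable _ _)
      hA.stronglyMeasurable.stronglyMeasurableAtFilter hA.continuousAt
  have hdg : ∀ u ∈ uIcc 0 M, HasDerivAt (fun u : ℝ => 1 / (1 + u) ^ 3) (-3 / (1 + u) ^ 4) u := by
    intro u hu
    rw [uIcc_of_le hM0] at hu
    have h1 : (0 : ℝ) < 1 + u := by linarith [hu.1]
    have h2 : HasDerivAt (fun u : ℝ => 1 + u) 1 u := by
      simpa using (hasDerivAt_id u).const_add 1
    have h3 := (h2.pow 3).inv (pow_pos h1 3).ne'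
    refine (h3.congr_deriv ?_).congr_of_eventuallyEq ?_
    · simp only [Pi.pow_apply]
      field_simp
      norm_num
      ring
    · refine Filter.Eventually.of_forall fun y => ?_
      simp only [one_div]
      rfl
  have cg : ContinuousOn (fun u : ℝ => -3 / (1 + u) ^ 4) (uIcc 0 M) := by
    intro u hu
    rw [uIcc_of_le hM0] at hu
    have h1 : (0 : ℝ) < 1 + u := by linarith [hu.1]
    apply ContinuousAt.continuousWithinAt
    apply ContinuousAt.div continuousAt_const (by fun_prop)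
    exact (pow_pos h1 4).ne'
  have hp := intervalIntegral.integral_deriv_mul_eq_sub hdF hdg (hA.intervalIntegrable _ _)
    cg.intervalIntegrable
  have cF : Continuous (fun s => ∫ u in (0 : ℝ)..s, A u) :=
    intervalIntegral.continuous_primitive (fun a b => hA.intervalIntegrable a b) 0
  have i1 : IntervalIntegrable (fun u => A u * (1 / (1 + u) ^ 3)) volume 0 M := by
    apply ContinuousOn.intervalIntegrable
    apply hA.continuousOn.mul
    intro u hu
    exact (hdg u hu).continuousAt.continuousWithinAt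
  have i2 : IntervalIntegrable (fun u => (∫ u in (0 : ℝ)..u, A u) * (-3 / (1 + u) ^ 4)) volume 0 M :=
    (cF.continuousOn.mul cg).intervalIntegrable
  rw [intervalIntegral.integral_add i1 i2, intervalIntegral.integral_same] at hp
  have h2 : -(3 * K * M) ≤ ∫ u in (0 : ℝ)..M, (∫ u in (0 : ℝ)..u, A u) * (-3 / (1 + u) ^ 4) := by
    have h3 : ∫ _u in (0 : ℝ)..M, (-(3 * K) : ℝ) ≤
        ∫ u in (0 : ℝ)..M, (∫ u in (0 : ℝ)..u, A u) * (-3 / (1 + u) ^ 4) := by
      apply intervalIntegral.integral_mono_on hM0 intervalIntegrable_const i2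
      intro u hu
      have h4 : (0 : ℝ) < (1 + u) ^ 4 := pow_pos (by linarith [hu.1]) 4
      have h5 := hF u hu
      have h6 : (∫ u in (0 : ℝ)..u, A u) * (-3 / (1 + u) ^ 4) =
          -(3 * ((∫ u in (0 : ℝ)..u, A u) / (1 + u) ^ 4)) := by ring
      have h7 : (∫ u in (0 : ℝ)..u, A u) / (1 + u) ^ 4 ≤ K := by
        rw [div_le_iff₀ h4]
        exact h5
      rw [h6]
      linarith
    rw [intervalIntegral.integral_const, smul_eq_mul, sub_zero] at h3
    linarith
  have h8 : (∫ u in (0 : ℝ)..M, A u) * (1 / (1 + M) ^ 3) ≤ K * (1 + M) := by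
    have h9 := hF M ⟨hM0, le_rfl⟩
    have h10 : (0 : ℝ) < (1 + M) ^ 3 := pow_pos (by linarith) 3
    rw [mul_one_div, div_le_iff₀ h10]
    calc (∫ u in (0 : ℝ)..M, A u) ≤ K * (1 + M) ^ 4 := h9
      _ = K * (1 + M) * (1 + M) ^ 3 := by ring
  rw [zero_mul, sub_zero] at hp
  nlinarith

theorem t_EN : S_EN := by
  intro C1 hC1
  refine ⟨204 * C1 ^ 2, by positivity, ?_⟩
  intro T L hL hT V P D v r cV cP cD cv cr hr1 hr2 iV cVn hout hE hv hPn hDn
  have hL0 : (0 : ℝ) < L := by linarith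
  have hT0 : (0 : ℝ) < T := by linarith
  have hC0 : (0 : ℝ) < C1 := by linarith
  have hM : (1 : ℝ) ≤ L / 2 := by linarith
  have hM0 : (0 : ℝ) ≤ L / 2 := by linarith
  have hab : T + L ≤ 2 * T - L := by linarith
  have hpi := Real.pi_gt_three
  set c0 : ℝ := 1 / Real.sqrt (2 * Real.pi) with hc0def
  have hc00 : 0 ≤ c0 := by positivity
  have hc0sq : c0 ^ 2 = 1 / (2 * Real.pi) := by
    rw [hc0def, div_pow, one_pow, Real.sq_sqrt (by positivity)]
  have hc01 : c0 ≤ 1 := by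
    have h1 : c0 ^ 2 ≤ 1 := by
      rw [hc0sq, div_le_one (by positivity)]
      linarith
    nlinarith
  have cD2 : Continuous (Function.uncurry fun u t : ℝ => ‖D u t‖ ^ 2) := by
    have h1 : Continuous fun p : ℝ × ℝ => ‖D p.1 p.2‖ ^ 2 := cD.norm.pow 2
    exact h1
  have cA : Continuous fun u => ∫ t in (T + L)..(2 * T - L), ‖D u t‖ ^ 2 :=
    intervalIntegral.continuous_parametric_intervalIntegral_of_continuous' cD2 _ _
  have hA0 : ∀ u, 0 ≤ ∫ t in (T + L)..(2 * T - L), ‖D u t‖ ^ 2 := fun u =>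
    intervalIntegral.integral_nonneg hab fun t _ => sq_nonneg _
  have hpt : ∀ u ∈ Icc 0 (L / 2), |r u * ((∫ t : ℝ, ‖V u t‖ ^ 2) - T / (2 * Real.pi) * v u)| ≤
      8 * C1 * T / L + 80 * C1 ^ 2 * T * (1 / ((1 + u) * Real.sqrt (1 + u))) +
        16 * L * ((∫ t in (T + L)..(2 * T - L), ‖D u t‖ ^ 2) * (1 / (1 + u) ^ 3)) := by
    intro u hu
    have hu0 := hu.1
    have hu1 := hu.2
    set A := ∫ t in (T + L)..(2 * T - L), ‖D u t‖ ^ 2 with hAdef
    have hAn : 0 ≤ A := hA0 u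
    set Pn := ∫ t in (T + L)..(2 * T - L), ‖P u t‖ ^ 2 with hPndef
    set s := 1 + u with hs
    have hs1 : 1 ≤ s := by linarith
    have hs0 : 0 < s := by linarith
    have hsL : s ≤ L := by linarith
    have hq0 : 0 < Real.sqrt s := Real.sqrt_pos.2 hs0
    have hq1 : 1 ≤ Real.sqrt s := by
      rw [← Real.sqrt_one]
      exact Real.sqrt_le_sqrt hs1
    have hqq : Real.sqrt s * Real.sqrt s = s := Real.mul_self_sqrt hs0.le
    set q := Real.sqrt s with hq
    -- the bound of `r`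
    have hr : |r u| * s ^ 2 ≤ 4 := by
      have h1 := hr1 u
      have h2 := hr2 u
      have h3 : s ^ 2 ≤ 2 + 2 * u ^ 2 := by
        rw [hs]
        nlinarith [sq_nonneg (1 - u)]
      calc |r u| * s ^ 2 ≤ |r u| * (2 + 2 * u ^ 2) := mul_le_mul_of_nonneg_left h3 (abs_nonneg _)
        _ = 2 * |r u| + 2 * (|r u| * u ^ 2) := by ring
        _ ≤ 4 := by linarith
    have hr' : |r u| ≤ 4 / s ^ 2 := by
      rw [le_div_iff₀ (by positivity)]
      exact hr
    -- the parameter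
    set η := s / L + 1 / q with hη
    have hη0 : 0 < η := by positivity
    have e1 : 1 + 1 / η ≤ 2 * q := by
      have h1 : 1 / η ≤ q := by
        rw [div_le_iff₀ hη0, hη, mul_add, mul_one_div, div_self hq0.ne']
        have : 0 ≤ q * (s / L) := by positivity
        linarith
      linarith
    have e2 : 1 + 1 / η ≤ 2 * (L / s) := by
      have h1 : 1 / η ≤ L / s := by
        rw [div_le_iff₀ hη0, hη, mul_add]
        have h2 : L / s * (s / L) = 1 := by field_simp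
        rw [h2]
        have : 0 ≤ L / s * (1 / q) := by positivity
        linarith
      have h2 : 1 ≤ L / s := by
        rw [le_div_iff₀ hs0]
        linarith
      linarith
    -- splitting
    have hVin : (∫ t : ℝ, ‖V u t‖ ^ 2) = (∫ t in (T + L)..(2 * T - L), ‖V u t‖ ^ 2) +
        ∫ t in (Icc (T + L) (2 * T - L))ᶜ, ‖V u t‖ ^ 2 := by
      rw [← integral_add_compl (measurableSet_Icc (a := T + L) (b := 2 * T - L)) (iV u),
        intervalIntegral.integral_of_le hab, integral_Icc_eq_integral_Ioc]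
    have hVout0 : 0 ≤ ∫ t in (Icc (T + L) (2 * T - L))ᶜ, ‖V u t‖ ^ 2 :=
      integral_nonneg fun t => sq_nonneg _
    have hVout := hout u hu0 hu1
    have hcu : Continuous fun t : ℝ => ((u, t) : ℝ × ℝ) := by fun_prop
    have hone := one_freq (ε := C1 * (Real.exp (-u) + 1 / L)) hc00 hc01 hη0 hab (V u) (P u) (D u)
      (cV.comp hcu) (cP.comp hcu) (cD.comp hcu) (fun t ht => hE u hu0 hu1 t ht)
    rw [← hAdef, ← hPndef] at hone
    have hε : (C1 * (Real.exp (-u) + 1 / L)) ^ 2 ≤ 4 * C1 ^ 2 := by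
      have h1 : Real.exp (-u) ≤ 1 := Real.exp_le_one_iff.2 (by linarith)
      have h2 : 1 / L ≤ 1 := by
        rw [div_le_one hL0]
        linarith
      have h3 : 0 < Real.exp (-u) := Real.exp_pos _
      have h4 : 0 < 1 / L := by positivity
      have h5 : Real.exp (-u) + 1 / L ≤ 2 := by linarith
      calc (C1 * (Real.exp (-u) + 1 / L)) ^ 2 = C1 ^ 2 * (Real.exp (-u) + 1 / L) ^ 2 := by ring
        _ ≤ C1 ^ 2 * 2 ^ 2 :=
          mul_le_mul_of_nonneg_left (pow_le_pow_left₀ (by positivity) h5 2) (sq_nonneg _)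
        _ = 4 * C1 ^ 2 := by ring
    have hPu := hPn u hu0 hu1
    rw [← hPndef] at hPu
    have hvu := hv u hu0 hu1
    have hPn1 : Pn ≤ 2 * C1 * T * s := by
      have h1 := (abs_le.1 hPu).2
      have h2 : T * v u ≤ T * (C1 * (1 + u)) := mul_le_mul_of_nonneg_left hvu.2 hT0.le
      have h3 : C1 * T ≤ C1 * T * s := le_mul_of_one_le_right (by positivity) hs1
      calc Pn ≤ C1 * T + T * v u := by linarith
        _ ≤ C1 * T * s + T * (C1 * (1 + u)) := by linarith
        _ = 2 * C1 * T * s := by rw [hs]; ring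
    have hbase : |(∫ t : ℝ, ‖V u t‖ ^ 2) - T / (2 * Real.pi) * v u| ≤
        2 * C1 * T + η * (2 * C1 * T * s) + (1 + 1 / η) * (2 * A) + (1 + 1 / η) * (8 * C1 ^ 2 * T) := by
      have h1 : (∫ t : ℝ, ‖V u t‖ ^ 2) - T / (2 * Real.pi) * v u =
          ((∫ t in (T + L)..(2 * T - L), ‖V u t‖ ^ 2) - c0 ^ 2 * Pn) +
          (∫ t in (Icc (T + L) (2 * T - L))ᶜ, ‖V u t‖ ^ 2) + c0 ^ 2 * (Pn - T * v u) := by
        rw [hVin, hc0sq]
        ring
      have h2 : |c0 ^ 2 * (Pn - T * v u)| ≤ C1 * T := by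
        rw [abs_mul, abs_of_nonneg (sq_nonneg c0)]
        calc c0 ^ 2 * |Pn - T * v u| ≤ 1 * (C1 * T) := by
              apply mul_le_mul _ hPu (abs_nonneg _) zero_le_one
              exact pow_le_one₀ hc00 hc01
          _ = C1 * T := one_mul _
      have h3 : |∫ t in (Icc (T + L) (2 * T - L))ᶜ, ‖V u t‖ ^ 2| ≤ C1 * T := by
        rw [abs_of_nonneg hVout0]
        exact hVout
      have h4 : η * Pn ≤ η * (2 * C1 * T * s) := mul_le_mul_of_nonneg_left hPn1 hη0.le
      have h5 : 0 ≤ 1 + 1 / η := by positivity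
      have h6 : 2 * (C1 * (Real.exp (-u) + 1 / L)) ^ 2 * (2 * T - L - (T + L)) ≤ 8 * C1 ^ 2 * T := by
        have h7 : 2 * T - L - (T + L) ≤ T := by linarith
        have h8 : 0 ≤ 2 * T - L - (T + L) := by linarith
        calc 2 * (C1 * (Real.exp (-u) + 1 / L)) ^ 2 * (2 * T - L - (T + L)) ≤
            (2 * (4 * C1 ^ 2)) * T := by
              apply mul_le_mul (by linarith) h7 h8 (by positivity)
          _ = 8 * C1 ^ 2 * T := by ring
      have h7 : (1 + 1 / η) * (2 * A + 2 * (C1 * (Real.exp (-u) + 1 / L)) ^ 2 * (2 * T - L - (T + L))) ≤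
          (1 + 1 / η) * (2 * A + 8 * C1 ^ 2 * T) := mul_le_mul_of_nonneg_left (by linarith) h5
      rw [h1]
      have t1 := abs_add_le (((∫ t in (T + L)..(2 * T - L), ‖V u t‖ ^ 2) - c0 ^ 2 * Pn) +
          (∫ t in (Icc (T + L) (2 * T - L))ᶜ, ‖V u t‖ ^ 2)) (c0 ^ 2 * (Pn - T * v u))
      have t2 := abs_add_le ((∫ t in (T + L)..(2 * T - L), ‖V u t‖ ^ 2) - c0 ^ 2 * Pn)
          (∫ t in (Icc (T + L) (2 * T - L))ᶜ, ‖V u t‖ ^ 2)
      have t3 : (1 + 1 / η) * (2 * A + 8 * C1 ^ 2 * T) =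
          (1 + 1 / η) * (2 * A) + (1 + 1 / η) * (8 * C1 ^ 2 * T) := mul_add _ _ _
      calc _ ≤ _ := t1
        _ ≤ _ := add_le_add t2 h2
        _ ≤ (η * (2 * C1 * T * s) + ((1 + 1 / η) * (2 * A) + (1 + 1 / η) * (8 * C1 ^ 2 * T)) +
            C1 * T) + C1 * T := by
          refine add_le_add (add_le_add ?_ h3) le_rfl
          exact hone.trans (add_le_add h4 (h7.trans (le_of_eq t3)))
        _ = _ := by ring
    -- multiply
    rw [abs_mul]
    have hB0 : 0 ≤ 2 * C1 * T + η * (2 * C1 * T * s) + (1 + 1 / η) * (2 * A) +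
        (1 + 1 / η) * (8 * C1 ^ 2 * T) := by positivity
    have hmul : |r u| * |(∫ t : ℝ, ‖V u t‖ ^ 2) - T / (2 * Real.pi) * v u| ≤
        4 / s ^ 2 * (2 * C1 * T + η * (2 * C1 * T * s) + (1 + 1 / η) * (2 * A) +
          (1 + 1 / η) * (8 * C1 ^ 2 * T)) := mul_le_mul hr' hbase (abs_nonneg _) (by positivity)
    refine hmul.trans ?_
    have g1 : 4 / s ^ 2 * (2 * C1 * T) ≤ 8 * C1 ^ 2 * T * (1 / (s * q)) := by
      have h1 : 1 / s ^ 2 ≤ 1 / (s * q) := by
        apply one_div_le_one_div_of_le (by positivity)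
        have : q ≤ s := by nlinarith
        nlinarith
      have h2 : C1 * T ≤ C1 ^ 2 * T := by
        have : C1 ≤ C1 ^ 2 := by nlinarith
        exact mul_le_mul_of_nonneg_right this hT0.le
      calc 4 / s ^ 2 * (2 * C1 * T) = 8 * (C1 * T) * (1 / s ^ 2) := by ring
        _ ≤ 8 * (C1 ^ 2 * T) * (1 / (s * q)) :=
          mul_le_mul (by linarith) h1 (by positivity) (by positivity)
        _ = 8 * C1 ^ 2 * T * (1 / (s * q)) := by ring
    have g2 : 4 / s ^ 2 * (η * (2 * C1 * T * s)) ≤ 8 * C1 * T / L + 8 * C1 ^ 2 * T * (1 / (s * q)) := by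
      have h2 : C1 * T ≤ C1 ^ 2 * T := by
        have : C1 ≤ C1 ^ 2 := by nlinarith
        exact mul_le_mul_of_nonneg_right this hT0.le
      have h3 : 4 / s ^ 2 * (η * (2 * C1 * T * s)) = 8 * C1 * T / L + 8 * (C1 * T) * (1 / (s * q)) := by
        rw [hη]
        field_simp
        ring
      rw [h3]
      have h4 : 8 * (C1 * T) * (1 / (s * q)) ≤ 8 * (C1 ^ 2 * T) * (1 / (s * q)) :=
        mul_le_mul_of_nonneg_right (by linarith) (by positivity)
      calc 8 * C1 * T / L + 8 * (C1 * T) * (1 / (s * q)) ≤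
          8 * C1 * T / L + 8 * (C1 ^ 2 * T) * (1 / (s * q)) := by linarith
        _ = _ := by ring
    have g3 : 4 / s ^ 2 * ((1 + 1 / η) * (2 * A)) ≤ 16 * L * (A * (1 / s ^ 3)) := by
      calc 4 / s ^ 2 * ((1 + 1 / η) * (2 * A)) ≤ 4 / s ^ 2 * (2 * (L / s) * (2 * A)) := by
            apply mul_le_mul_of_nonneg_left _ (by positivity)
            exact mul_le_mul_of_nonneg_right e2 (by positivity)
        _ = 16 * L * (A * (1 / s ^ 3)) := by
            field_simp
            ring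
    have g4 : 4 / s ^ 2 * ((1 + 1 / η) * (8 * C1 ^ 2 * T)) ≤ 64 * C1 ^ 2 * T * (1 / (s * q)) := by
      calc 4 / s ^ 2 * ((1 + 1 / η) * (8 * C1 ^ 2 * T)) ≤ 4 / s ^ 2 * (2 * q * (8 * C1 ^ 2 * T)) := by
            apply mul_le_mul_of_nonneg_left _ (by positivity)
            exact mul_le_mul_of_nonneg_right e1 (by positivity)
        _ = 64 * C1 ^ 2 * T * (q / s ^ 2) := by ring
        _ = 64 * C1 ^ 2 * T * (1 / (s * q)) := by
            congr 1
            rw [div_eq_div_iff (by positivity) (by positivity)]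
            nlinarith
    calc 4 / s ^ 2 * (2 * C1 * T + η * (2 * C1 * T * s) + (1 + 1 / η) * (2 * A) +
          (1 + 1 / η) * (8 * C1 ^ 2 * T)) =
        4 / s ^ 2 * (2 * C1 * T) + 4 / s ^ 2 * (η * (2 * C1 * T * s)) +
          4 / s ^ 2 * ((1 + 1 / η) * (2 * A)) + 4 / s ^ 2 * ((1 + 1 / η) * (8 * C1 ^ 2 * T)) := by ring
      _ ≤ 8 * C1 ^ 2 * T * (1 / (s * q)) + (8 * C1 * T / L + 8 * C1 ^ 2 * T * (1 / (s * q))) +
          16 * L * (A * (1 / s ^ 3)) + 64 * C1 ^ 2 * T * (1 / (s * q)) := by linarith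
      _ = 8 * C1 * T / L + 80 * C1 ^ 2 * T * (1 / (s * q)) + 16 * L * (A * (1 / s ^ 3)) := by ring
  -- integrate
  have iS : IntervalIntegrable (fun u : ℝ => 1 / ((1 + u) * Real.sqrt (1 + u))) volume 0 (L / 2) := by
    apply ContinuousOn.intervalIntegrable
    intro u hu
    rw [uIcc_of_le hM0] at hu
    have h1 : (0 : ℝ) < 1 + u := by linarith [hu.1]
    apply ContinuousAt.continuousWithinAt
    apply ContinuousAt.div continuousAt_const (by fun_prop)
    exact (mul_pos h1 (Real.sqrt_pos.2 h1)).ne'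
  have iA : IntervalIntegrable (fun u : ℝ =>
      (∫ t in (T + L)..(2 * T - L), ‖D u t‖ ^ 2) * (1 / (1 + u) ^ 3)) volume 0 (L / 2) := by
    apply ContinuousOn.intervalIntegrable
    apply cA.continuousOn.mul
    intro u hu
    rw [uIcc_of_le hM0] at hu
    have h1 : (0 : ℝ) < 1 + u := by linarith [hu.1]
    apply ContinuousAt.continuousWithinAt
    apply ContinuousAt.div continuousAt_const (by fun_prop)
    exact (pow_pos h1 3).ne'
  have hint : (∫ u in (0 : ℝ)..(L / 2), r u * ∫ t : ℝ, ‖V u t‖ ^ 2) -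
      T / (2 * Real.pi) * ∫ u in (0 : ℝ)..(L / 2), r u * v u =
      ∫ u in (0 : ℝ)..(L / 2), r u * ((∫ t : ℝ, ‖V u t‖ ^ 2) - T / (2 * Real.pi) * v u) := by
    rw [← intervalIntegral.integral_const_mul, ← intervalIntegral.integral_sub]
    · congr 1
      funext u
      ring
    · exact (cr.mul cVn).intervalIntegrable _ _
    · exact ((cr.mul cv).const_mul _ |>.intervalIntegrable _ _)
  rw [hint]
  have hfin : ‖∫ u in (0 : ℝ)..(L / 2), r u * ((∫ t : ℝ, ‖V u t‖ ^ 2) - T / (2 * Real.pi) * v u)‖ ≤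
      ∫ u in (0 : ℝ)..(L / 2), (8 * C1 * T / L + 80 * C1 ^ 2 * T * (1 / ((1 + u) * Real.sqrt (1 + u))) +
        16 * L * ((∫ t in (T + L)..(2 * T - L), ‖D u t‖ ^ 2) * (1 / (1 + u) ^ 3))) := by
    apply intervalIntegral.norm_integral_le_of_norm_le hM0
    · refine Filter.Eventually.of_forall fun u hu => ?_
      rw [Real.norm_eq_abs]
      exact hpt u (Ioc_subset_Icc_self hu)
    · exact (intervalIntegrable_const.add (iS.const_mul _)).add (iA.const_mul _)
  rw [Real.norm_eq_abs] at hfin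
  refine hfin.trans ?_
  rw [intervalIntegral.integral_add (intervalIntegrable_const.add (iS.const_mul _)) (iA.const_mul _),
    intervalIntegral.integral_add intervalIntegrable_const (iS.const_mul _),
    intervalIntegral.integral_const_mul, intervalIntegral.integral_const_mul,
    intervalIntegral.integral_const, smul_eq_mul]
  have k1 := int_pow (L / 2) hM0
  have k2 := int_parts (L / 2) (C1 * T / L ^ 2) hM _ cA hA0 (by positivity) (fun U h1 h2 => by
    have := hDn U h1 h2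
    calc _ ≤ C1 * U ^ 4 * T / L ^ 2 := this
      _ = C1 * T / L ^ 2 * U ^ 4 := by ring)
  have m1 : (L / 2 - 0) * (8 * C1 * T / L) = 4 * C1 * T := by
    field_simp
    ring
  have m2 : 80 * C1 ^ 2 * T * (∫ u in (0 : ℝ)..(L / 2), 1 / ((1 + u) * Real.sqrt (1 + u))) ≤
      80 * C1 ^ 2 * T * 2 := mul_le_mul_of_nonneg_left k1 (by positivity)
  have m3 : 16 * L * (∫ u in (0 : ℝ)..(L / 2),
      (∫ t in (T + L)..(2 * T - L), ‖D u t‖ ^ 2) * (1 / (1 + u) ^ 3)) ≤ 40 * C1 * T := by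
    calc _ ≤ 16 * L * (C1 * T / L ^ 2 * (1 + 4 * (L / 2))) :=
          mul_le_mul_of_nonneg_left k2 (by positivity)
      _ = 16 * C1 * T / L + 32 * C1 * T := by
          field_simp
          ring
      _ ≤ 40 * C1 * T := by
          have : 16 * C1 * T / L ≤ 4 * C1 * T := by
            rw [div_le_iff₀ hL0]
            have : 0 ≤ C1 * T := by positivity
            nlinarith
          have : 0 ≤ C1 * T := by positivity
          linarith
  rw [m1]
  have h2 : C1 * T ≤ C1 ^ 2 * T := by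
    have : C1 ≤ C1 ^ 2 := by nlinarith
    exact mul_le_mul_of_nonneg_right this hT0.le
  nlinarith

end Pool.Agent.U747.MV
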